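import Pool.Agent.Lib.P8ffccf.Theta

/-! # Strictly convex drawings of 3-connected planar graphs: the grid side is `Θ(n^{3/2})` -/

namespace Pool.Agent.Results.MP_8ffccf_co.GridSideTheta

open P8ffccf

/-- The least `L n` such that every 3-connected planar graph on `n` vertices has a strictly convex
drawing on the `L n × L n` grid exists and satisfies `c n^{3/2} ≤ L n ≤ C n^{3/2}` for all
`n ≥ 4`, with absolute constants `c, C > 0`. -/
theorem result : ∃ (L : ℕ → ℕ) (c C : ℝ), 0 < c ∧ 0 < C ∧ ∀ n : ℕ, 4 ≤ n →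
    IsLeast {k : ℕ | GridOK n k} (L n) ∧ c * (n : ℝ) ^ (3 / 2 : ℝ) ≤ L n ∧
      (L n : ℝ) ≤ C * (n : ℝ) ^ (3 / 2 : ℝ) :=
  theta

end Pool.Agent.Results.MP_8ffccf_co.GridSideTheta
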